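import Pool.Agent.WAG.AConv

/-!
# MP_6c4da4_ag: the Chow motives of almost all abelian varieties over finite fields

`T : ChowTheory V` are the Chow groups with rational coefficients of the smooth projective varieties
over the field `k` with `q = T.q` elements (all fields of the structure are in Fulton, Intersection
Theory, Chapters 1 - 8), and `K : Cohomology T` is `l`-adic cohomology with complex coefficients
(Kuenneth formula, Lefschetz trace formula, Deligne's theorem on the absolute values of the
eigenvalues of Frobenius).  `Mot T` is the category of Chow motives.  `D : AbelianMotives K` is the
class `D.Ab` of the motives `h¹(A)` of the abelian varieties `A` over `k`, and the finite fields `D.E N`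
with `q ^ N` elements, with what is known about them: polarisations, finite dimensionality (Shermenev,
Kimura), Tate's theorem on the endomorphisms of abelian varieties, products, restriction of scalars.

(1) Let `Λ` be a set of complex numbers of absolute value `√q` with the partner property `Par q Λ`:
if a power of `z y₁ ⋯ y_(2 j - 1)`, `z, y_i ∈ Λ`, is the same power of `q ^ j`, then `z y_i` is `q` times a
root of unity, for some `i`.  Let `CatBy (D.Gn Λ)` be the category of the Chow motives generated, under
tensor products, duals, direct sums and direct summands, by the Tate motives, the motives `h(D.E N)` of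
all finite extensions of `k`, and the motives `h¹(A)` of all abelian varieties `A` all of whose
eigenvalues of Frobenius are in `Λ`.  Then this category is abelian, its numerically trivial morphisms
are zero, and on every `X` whose motive is in it the numerically trivial cycles vanish.

(2) Let `S` be a set of real Weil polynomials in `FL q` which satisfies the criterion `Cr q v S`: if
`h_1, ..., h_n ∈ S` are pairwise not geometrically isogenous, each `B_i` is one root or a pair of two not
conjugate roots of `x ^ g h_i (x + q / x)`, at least one of them is a single root, and all `B_i` give the
same field `Fd (B_i)`, then the slope vectors of the `B_i` are linearly independent.  Then the set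
`Adm q S` of the algebraic numbers which are, up to roots of unity, `√q` or roots of
`x ^ g h (x + q / x)`, `h ∈ S`, satisfies the hypotheses of (1).  So (1) holds for all abelian
varieties whose simple factors over the algebraic closure of `k` are supersingular or come from `S`.

(3) There are sets `S q`, for all powers `q` of prime numbers, which satisfy the criterion, contain all
ordinary elliptic curves, and have density one among all isogeny classes of abelian varieties, for
every dimension `g ≥ 1`: let `A q` be any set of real Weil polynomials of degree `g` which contains the
ordinary ones, all others with `q ∣ h(0) ^ 2`; for example the set of all isogeny classes of abelian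
varieties of dimension `g` over the field with `q` elements (Honda, Tate).  Then the proportion of `S q`
in `A q` tends to `1` as `q` tends to infinity.

Method.  Words `Y ⊗ ⋯ ⊗ Y ⊗ U`, `Y = h¹(A)` with eigenvalues in `Λ`, `U = L ^ a ⊗ h(D.E N)`, and their
summands are closed under all operations.  The Frobenius of `Y` is semisimple, Lagrange idempotents
split a word over an extension of the field into pieces with one eigenvalue of each factor, and
restriction of scalars descends the pieces to `k`.  A piece on which Frobenius has the eigenvalue `1`
and a numerically nontrivial part has, by the partner property, two factors whose eigenvalues have the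
product `q`; they contribute a divisor class, by Tate's theorem, and it splits off a shorter word.  A
piece without numerically nontrivial part is zero by Kimura's theorem for `h¹(A) ⊗ h¹(A)` and induction.
So rational and numerical equivalence agree on the generated category, and it is abelian (Jannsen).
(2) is the classification of the multiplicative relations between Weil numbers by linear relations
between slope vectors; (3) is a sieve in the space of the real Weil polynomials: the Galois groups are
as large as possible and the splitting fields are different for almost all pairs.
-/

set_option autoImplicit false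

open CategoryTheory MonoidalCategory Limits Polynomial Filter CHS AlmostAll

universe v u w x

namespace Pool.Agent.Results.MP_6c4da4_ag.AlmostAllAbelianVarieties

/-- The Chow motives of almost all abelian varieties over finite fields. -/
theorem result :
    (∀ (V : Type u) [Category.{v} V] [CartesianMonoidalCategory V] (T : ChowTheory.{v, u, w} V)
      (K : Cohomology.{v, u, w, x} T) (D : AbelianMotives K) (Λ : ℂ → Prop),
      Par T.q Λ → (∀ z, Λ z → ‖z‖ ^ 2 = (T.q : ℝ)) → IsAbelian (CatBy (D.Gn Λ)) ∧
      (∀ (M N : Mot T) (f : M ⟶ N), GenBy (D.Gn Λ) M → GenBy (D.Gn Λ) N →
        T.NumTrivial (Mot.Hom.val f) → f = 0) ∧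
      ∀ X : V, GenBy (D.Gn Λ) (Mot.h T X) → ∀ a : T.CH X, T.NumTrivial a → a = 0) ∧
    (∀ (q : ℕ) (v : AbsoluteValue (AlgebraicClosure ℚ) ℝ) (S : Set ℤ[X]), IsPrimePow q →
      Val q v → S ⊆ FL q → Cr q v S → Par q (Adm q S) ∧ ∀ z, Adm q S z → ‖z‖ ^ 2 = (q : ℝ)) ∧
    ∃ S : ℕ → Set ℤ[X],
      (∀ q, IsPrimePow q → S q ⊆ FL q ∧ Ord 1 q ⊆ S q ∧ (∃ v, Val q v) ∧
        ∀ v, Val q v → Cr q v (S q)) ∧
      ∀ (g : ℕ) (A : ℕ → Set ℤ[X]), 1 ≤ g →
        (∀ q, IsPrimePow q → Ord g q ⊆ A q ∧ A q ⊆ All g q) →
        Tendsto (fun q : {q : ℕ // IsPrimePow q} => ((S q ∩ A q).ncard : ℝ) / (A q).ncard)
          atTop (nhds 1) :=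
  ⟨fun V _ _ T K D Λ h1 h2 => Pool.Agent.WAG.main_chow.1 V T K D Λ h1 h2, arith, dens⟩

end Pool.Agent.Results.MP_6c4da4_ag.AlmostAllAbelianVarieties
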