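import Pool.Agent.CHS.Detect

/-!
# Cohomology detects Chow groups if Chow motives are abelian (MP_6c4da4_ag)

`Mot T` is the category of the triples `(X, p, m)` of the problem file, built from the Chow rings
`T` of the objects of `V`, and `K` is a Weil cohomology theory with Frobenius weights.  The smooth
projective varieties over a finite field with their Chow groups (rational coefficients) and
`l`-adic cohomology are the example of the problem.  If `Mot T` is abelian, then

(1) a morphism of Chow motives which is injective (surjective, bijective) on cohomology is a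
monomorphism (an epimorphism, an isomorphism);
(2) a correspondence from `X` to `Y` which is injective (bijective) on `H^{2i}(X)` is injective
(bijective) on `CH^i(X)`;
(3) in particular the hard Lefschetz theorem holds for Chow groups, and numerical and rational
equivalence agree for the cycles of dimension `i` if the Lefschetz form on `CH^i(X)` is
non-degenerate (as it is for `i = 1`).
-/

set_option autoImplicit false

open CategoryTheory MonoidalCategory CartesianMonoidalCategory

universe v u w x

namespace Pool.Agent.Results.MP_6c4da4_ag.CohomologyDetectsChow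

theorem result {V : Type u} [Category.{v} V] [CartesianMonoidalCategory V]
    {T : CHS.ChowTheory.{v, u, w} V} (K : CHS.Cohomology.{v, u, w, x} T)
    (hA : CHS.IsAbelian (CHS.Mot T)) :
    (∀ (M N : CHS.Mot T) (f : M ⟶ N),
      (Set.InjOn (K.corr f.val) (K.cohMot M) → Mono f) ∧
      (Set.SurjOn (K.corr f.val) (K.cohMot M) (K.cohMot N) → Epi f) ∧
      (Set.BijOn (K.corr f.val) (K.cohMot M) (K.cohMot N) → IsIso f)) ∧
    (∀ (X Y : V) (i r : ℤ), ∀ f ∈ T.cyc (X ⊗ Y) (T.dim X + r),
      (Set.InjOn (K.corr f) (K.coh X (2 * i)) → Set.InjOn (T.corr f) (T.cyc X i)) ∧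
      (Set.BijOn (K.corr f) (K.coh X (2 * i)) (K.coh Y (2 * (i + r))) →
        Set.BijOn (T.corr f) (T.cyc X i) (T.cyc Y (i + r)))) ∧
    (∀ (X : V), ∀ l ∈ T.cyc X 1, K.HardLefschetz X l →
      ∀ (i : ℤ) (k : ℕ), 2 * i + k = T.dim X →
        Set.BijOn (fun a : T.CH X => a * l ^ k) (T.cyc X i) (T.cyc X (i + k)) ∧
        ((∀ a ∈ T.cyc X i, T.NumTrivial (a * l ^ k) → a = 0) →
          ∀ b ∈ T.cyc X (i + k), T.NumTrivial b → b = 0)) :=
  K.detect hA

end Pool.Agent.Results.MP_6c4da4_ag.CohomologyDetectsChow
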