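import Pool.Agent.GTM.Main3
import Pool.Agent.GT4.Fin2

/-!
# MP_6c4da4_ag: the Chow motives of elliptic curves and abelian surfaces over finite fields

`T : ChowTheory V` are the Chow groups with rational coefficients of the smooth projective varieties
over the field `k` with `q = T.q` elements (all fields of the structure are in Fulton, Intersection
Theory, Chapters 1 - 8), and `K : Cohomology T` is `l`-adic cohomology with complex coefficients
(Kuenneth formula, Lefschetz trace formula, Deligne's theorem on the absolute values of the
eigenvalues of Frobenius).  `Mot T` is the category of Chow motives.  `D : AbelianMotives K` is the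
class `D.Ab` of the motives `h¹(A)` of the abelian varieties `A` over `k`, and the finite fields `D.E N`
with `q ^ N` elements, with what is known about them: polarisations, finite dimensionality (Shermenev,
Kimura), Tate's theorem on the endomorphisms of abelian varieties, products, restriction of scalars.

`q` is a power of the prime number `p`.  `All 1 q` and `T2 q` contain the real Weil polynomials `h` of the
isogeny classes of elliptic curves and of abelian surfaces over `k` (Honda, Tate, Waterhouse, Rueck):
the characteristic polynomial of Frobenius is `x ^ g h (x + q / x)`; and a few more supersingular `h`, which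
do not change `Adm`.  `h = x² + A x + B` is in `T2 q` if its roots are real and in `[-2√q, 2√q]` and
(ordinary) `p ∤ B`, or (`p`-rank one, `O1`) `p ∣ B`, `p ∤ A`, `q ∣ B²` and `DP = (B + 4 q)² - 4 q A²` is zero or
not a `p`-adic square, or (supersingular, `O2`) `q ∣ A²`, `q ∣ B`.
`Adm q S` are the complex numbers which are, up to roots of unity, `√q` or roots of
`x ^ g h (x + q / x)`, `h ∈ S`.

`Settled D Λ`: let `CatBy (D.Gn Λ)` be the category of the Chow motives generated, under tensor products,
duals, direct sums and direct summands, by the Tate motives, the motives `h(D.E N)` of all finite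
extensions of `k`, and the motives `h¹(A)` of all abelian varieties `A` over `k` all of whose eigenvalues
of Frobenius are in `Λ`.  This category is abelian, its numerically trivial morphisms are zero, and on
every `X` whose motive is in it the numerically trivial cycles vanish.

(1) `q = 3, 7, 11, 27, 43`: `Settled D Λ` holds for `Λ = Adm q (All 1 q ∪ T2 q)`.  So it holds for all
abelian varieties whose simple factors over the algebraic closure of `k` are supersingular or come from
elliptic curves or abelian surfaces over `k`; for example for all products of curves of genus at most two.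

(2) `q ≤ 16`: `Settled D Λ` holds for `Λ = Adm q (All 1 q ∪ OT q)`: all elliptic curves, all ordinary
abelian surfaces, and all abelian surfaces over `k` without dihedral Galois group (`OT`: `p ∤ B`, or one of
`DD = A² - 4 B`, `DP`, `DD * DP` is a square).

(3) Every finite field `k`: `Settled D Λ` holds for `Λ = Adm q (All 1 q ∪ NO q)`: all elliptic curves, and
all abelian surfaces over `k` except the ordinary ones with a dihedral Galois group (`NO`: `p ∣ B`, or one
of `DD`, `DP`, `DD * DP` is a square).

(4) Every finite field `k`: `Settled D Λ` holds for `Λ = Adm q S`, if `S ⊆ All 1 q ∪ T2 q` is a good set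
(`GxP`): two surfaces form a reflex pair (`RxP`) if for both the quartic Weil polynomial has the dihedral
group of order eight as Galois group, neither is supersingular, and the second quartic CM field is the
reflex field of the first one (there are integers `n² = DD * DP₁`, `m² = DP * DD₁`, `w` such that
`u u₁ + 2 A n + 2 A₁ m = w²`, `u = A² - 2 B - 8 q`, and `- DD A₁ m` is a square if `w = 0`); `S` is good if all its
reflex pairs consist of ordinary surfaces and all reflex partners of a member are twists of each other.

(5) The arithmetic behind (1) - (4), without any hypothesis, is exact: a set `S ⊆ All 1 q ∪ T2 q` is good if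
and only if it has the partner property `Par q (Adm q S)`: if a power of `z y₁ ⋯ y_(2 j - 1)` is the same power
of `q ^ j`, then `z y_i` is `q` times a root of unity, for some `i`.  The sets of (1), (2) and (3) are good; for
`q < 64` and for all `q` not congruent to `3` modulo `4`, `All 1 q ∪ T2 q` is good only if `q` is as in (1).

Method.  The slope functions `f_a : σ ↦ 1 - 2 w(σ a)` on the Galois group, for two eigenvalues `a` of
elliptic curves or abelian surfaces over `k`, are equal, opposite or orthogonal, unless the surfaces are
a reflex pair; two ordinary reflex classes give four independent functions, by their inner products.  So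
every function in a relation `∑ f = 0` has a partner; three reflex classes, or two with a member of
`p`-rank one, give explicit relations: (5).  The motives: words `h¹(A) ⊗ ⋯ ⊗ h¹(A) ⊗ U`
are split by idempotents into pieces with one eigenvalue of each factor; by the partner property and
Tate's theorem a numerically nontrivial piece splits off a divisor class, and pieces without
numerically nontrivial part are zero by Kimura's theorem.  So rational and numerical equivalence agree,
and the category is abelian (Jannsen).
-/

set_option autoImplicit false

open CategoryTheory MonoidalCategory Limits Polynomial CHS AlmostAll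

universe v u w x

namespace Pool.Agent.Results.MP_6c4da4_ag.GenusTwoCurves

open Pool.Agent.GT3 Pool.Agent.GT4 Pool.Agent.GTM

/-- The Chow motives of elliptic curves and abelian surfaces over finite fields. -/
theorem result :
    (∀ (V : Type u) [Category.{v} V] [CartesianMonoidalCategory V] (T : ChowTheory.{v, u, w} V)
      (K : Cohomology.{v, u, w, x} T) (D : AbelianMotives K), IsPrimePow T.q →
      (T.q = 3 ∨ T.q = 7 ∨ T.q = 11 ∨ T.q = 27 ∨ T.q = 43 →
        Settled D (Adm T.q (All 1 T.q ∪ T2 T.q))) ∧
      (T.q ≤ 16 → Settled D (Adm T.q (All 1 T.q ∪ OT T.q))) ∧
      Settled D (Adm T.q (All 1 T.q ∪ NO T.q)) ∧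
      ∀ S ⊆ All 1 T.q ∪ T2 T.q, GxP T.q S → Settled D (Adm T.q S)) ∧
    ∀ q : ℕ, IsPrimePow q → (∀ S ⊆ All 1 q ∪ T2 q, Par q (Adm q S) ↔ GxP q S) ∧
      GxP q (All 1 q ∪ NO q) ∧ (q ≤ 16 → GxP q (All 1 q ∪ OT q)) ∧
      (q < 64 ∨ q % 4 ≠ 3 → (GxP q (All 1 q ∪ T2 q) ↔ q = 3 ∨ q = 7 ∨ q = 11 ∨ q = 27 ∨ q = 43)) := by
  have key : ∀ (V : Type u) [Category.{v} V] [CartesianMonoidalCategory V]
      (T : ChowTheory.{v, u, w} V) (K : Cohomology.{v, u, w, x} T) (D : AbelianMotives K),
      IsPrimePow T.q → ∀ S ⊆ All 1 T.q ∪ T2 T.q, GxP T.q S → Settled D (Adm T.q S) :=
    fun V _ _ T K D hq S hS hG => settled3 D hS ((GT4.crit hq hS).2 hG)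
  have hno : ∀ q : ℕ, IsPrimePow q → GxP q (All 1 q ∪ NO q) :=
    fun q hq => GT4.gx_of hq (gdno hq)
  have hot : ∀ q : ℕ, IsPrimePow q → q ≤ 16 → GxP q (All 1 q ∪ OT q) :=
    fun q hq h => GT4.gx_of hq (gd16 hq h)
  exact ⟨fun V _ _ T K D hq => ⟨fun h => key V T K D hq _ (Set.Subset.refl _)
        (GT4.gx_of hq (gdall h)),
      fun h => key V T K D hq _ (gd16 hq h).sub (hot _ hq h),
      key V T K D hq _ (gdno hq).sub (hno _ hq),
      fun S hS hG => key V T K D hq S hS hG⟩,
    fun q hq => ⟨fun S hS => GT4.crit hq hS, hno q hq, hot q hq, fun h => GT4.full_all hq h⟩⟩

end Pool.Agent.Results.MP_6c4da4_ag.GenusTwoCurves
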