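import Pool.Agent.DD.Fin

/-!
# MP_6c4da4_ag: abelian categories of Chow motives, rational equivalence and the density of cycles

`T : ChowTheory V` are the Chow groups with rational coefficients of the smooth projective varieties
over a finite field, with their usual formal properties, `Mot T` is the category of Chow motives
(triples `(X, p, m)`), `K` is a cohomology theory for which the trace formula, the Kuenneth formula
and the theorem on the absolute values of the eigenvalues of Frobenius hold (`l`-adic cohomology).
`S` is any class of Chow motives, `GenBy S` is the class of the motives generated by `S` and the Tate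
motives under tensor products, duals, direct sums and direct summands, `ByVar Y` is the class of the
motives generated by `h(Y)` and the Tate motives.

For a variety `Y` of dimension `d` let `N_r` and `R_r` be the dimensions of `CH^(r d)(Y^r × Y^r)`
modulo numerical equivalence and modulo rational equivalence, and `M_r` the multiplicity of `q^(r d)`
as an eigenvalue of Frobenius on the cohomology of `Y^r × Y^r` (the dimension predicted by the Tate
conjecture).  `K.Thin n Y` says that `0 < N_r`, `n N_r ≤ M_r` and `n N_r ≤ R_r` for all large `r`.
`T.N Y 1` is the dimension of `CH^1(Y)` modulo numerical equivalence.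
-/

set_option autoImplicit false

open CategoryTheory MonoidalCategory CHS

universe v u w x

namespace Pool.Agent.Results.MP_6c4da4_ag.TateOrRational

variable {V : Type u} [Category.{v} V] [CartesianMonoidalCategory V]

/-- Let `A` be the full subcategory of the motives generated by `S`.

Either (first alternative) `A` is abelian if all Chow motives form an abelian category, `A` is
abelian if and only if rational and numerical equivalence agree on its `Hom` spaces, and then they
agree on every variety `X` with `h(X)` in `A`.

Or (second alternative) Tate's formula fails for a motive in `S`; for every `n` there is an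
indecomposable motive `M = (X, p, m)` in `A` on whose cohomology Frobenius has the only eigenvalue
`q ^ m`, with a multiplicity `μ ≥ n`, but the endomorphisms of `M` modulo the numerically trivial
ones have dimension at most `μ` (Tate's formula says `μ ^ 2`); every variety `Y` with
`CH^1(Y) ≠ 0` modulo numerical equivalence which generates `M` (there are such `Y`) satisfies
`n N_r ≤ M_r` and `n N_r ≤ R_r` for all large `r`; and if such a `Y` generates all motives in `S`,
then this holds for all `n`: `N_r / M_r` tends to `0` and `R_r / N_r` tends to infinity. -/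
theorem result {T : ChowTheory.{v, u, w} V} (K : Cohomology.{v, u, w, x} T) (S : Mot T → Prop) :
    ((IsAbelian (Mot T) → IsAbelian (CatBy S)) ∧
      (IsAbelian (CatBy S) ↔ ∀ (M N : Mot T) (f : M ⟶ N), GenBy S M → GenBy S N →
        T.NumTrivial (Mot.Hom.val f) → f = 0) ∧
      (IsAbelian (CatBy S) →
        ∀ X : V, GenBy S (Mot.h T X) → ∀ a : T.CH X, T.NumTrivial a → a = 0)) ∨
    ((∃ M : Mot T, S M ∧ ¬ K.TateFormula M) ∧
      (∀ n : ℕ, ∃ M : Mot T, GenBy S M ∧
        (∀ e : M ⟶ M, e ≫ e = e → e = 0 ∨ e = 𝟙 M) ∧ n ≤ K.mult M ((T.q : ℂ) ^ M.m) ∧
        (∀ z : ℂ, z ≠ (T.q : ℂ) ^ M.m → K.mult M z = 0) ∧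
        T.numRank (Set.range (Mot.Hom.val : Mot.Hom M M → T.CH (M.X ⊗ M.X))) ≤
          (K.mult M ((T.q : ℂ) ^ M.m) : ℕ) ∧
        (∃ Y : V, T.N Y 1 ≠ 0 ∧ ByVar Y M) ∧ ∀ Y : V, T.N Y 1 ≠ 0 → ByVar Y M → K.Thin n Y) ∧
      ∀ Y : V, T.N Y 1 ≠ 0 → (∀ M : Mot T, S M → ByVar Y M) → ∀ n : ℕ, K.Thin n Y) :=
  K.density S

end Pool.Agent.Results.MP_6c4da4_ag.TateOrRational
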